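import Pool.Agent.Y283.WA.Circle

/-!
Uniform bounds for inverses in the Wiener algebra of the circle (two-sided absolutely convergent
Fourier series): the threshold is `1/2`.
-/

namespace Pool.Agent.Results.MP_de3d06_an.CircleThreshold

/-- `∑ |a_n|` over all integers `n`, with value in `[0, ∞]`, where
`a_n = ∫ f(t) e^{-2 π i n t} dt` are the Fourier coefficients of `f` on the circle `ℝ/ℤ`. -/
noncomputable def wienerNorm (f : UnitAddCircle → ℂ) : ENNReal := ∑' n : ℤ, ‖fourierCoeff f n‖ₑ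

/-- Continuous functions `f` on the circle with Wiener norm `1` and `|f| ≥ δ` everywhere. -/
def classG (δ : ℝ) : Set (UnitAddCircle → ℂ) :=
  {f | Continuous f ∧ wienerNorm f = 1 ∧ ∀ t, δ ≤ ‖f t‖}

/-- The supremum of the Wiener norm of `1/f` over the class, with value in `[0, ∞]`. -/
noncomputable def constK (δ : ℝ) : ENNReal := ⨆ f ∈ classG δ, wienerNorm fun t => (f t)⁻¹

/-- On the circle the norm of `1/f` is bounded in terms of `δ` exactly when `δ > 1/2`. -/
theorem result :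
    (∀ δ : ℝ, 1 / 2 < δ → δ ≤ 1 → constK δ < ⊤) ∧
    (∀ δ : ℝ, 0 < δ → δ ≤ 1 / 2 → constK δ = ⊤) ∧
    sInf {δ : ℝ | 0 < δ ∧ δ ≤ 1 ∧ constK δ < ⊤} = 1 / 2 :=
  Pool.Agent.Y283.WA.circle_threshold

end Pool.Agent.Results.MP_de3d06_an.CircleThreshold
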