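import Pool.Agent.Y283.PSMain

/-!
Uniform bounds for inverses in the Wiener algebra of the disc: the exact value of `C(δ)` for
every `0 < δ ≤ 1`, and hence `δ₀ = 1/2`.
-/

namespace Pool.Agent.Results.MP_de3d06_an.DiscSharpConstant

/-- The `n`-th Taylor coefficient of `f` at the origin, `f⁽ⁿ⁾(0) / n!`. -/
noncomputable def taylorCoeff (f : ℂ → ℂ) (n : ℕ) : ℂ :=
  iteratedDeriv n f 0 / (n.factorial : ℂ)

/-- `‖f‖_W = ∑ |a_n|`, with value in `[0, ∞]`, where `a_n` are the Taylor coefficients of `f`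
at the origin. -/
noncomputable def wienerNorm (f : ℂ → ℂ) : ENNReal := ∑' n, ‖taylorCoeff f n‖ₑ

/-- The class `F_δ`: functions analytic in the open unit disc with `‖f‖_W = 1` and `|f| ≥ δ`
on the open unit disc. -/
def classF (δ : ℝ) : Set (ℂ → ℂ) :=
  {f | DifferentiableOn ℂ f (Metric.ball 0 1) ∧ wienerNorm f = 1 ∧
    ∀ z ∈ Metric.ball (0 : ℂ) 1, δ ≤ ‖f z‖}

/-- `C(δ)`, the supremum over `f ∈ F_δ` of `M(f) = ‖1/f‖_W`, with value in `[0, ∞]`. -/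
noncomputable def constC (δ : ℝ) : ENNReal := ⨆ f ∈ classF δ, wienerNorm fun z => (f z)⁻¹

/-- `C(δ) = 1/(2δ-1)` for `1/2 < δ ≤ 1`, `C(δ) = ∞` for `0 < δ ≤ 1/2`, and
`δ₀ = inf {δ ∈ (0,1] : C(δ) < ∞} = 1/2`. -/
theorem result :
    (∀ δ : ℝ, 1 / 2 < δ → δ ≤ 1 → constC δ = ENNReal.ofReal (1 / (2 * δ - 1))) ∧
    (∀ δ : ℝ, 0 < δ → δ ≤ 1 / 2 → constC δ = ⊤) ∧
    sInf {δ : ℝ | 0 < δ ∧ δ ≤ 1 ∧ constC δ < ⊤} = 1 / 2 :=
  Pool.Agent.Y283.disc_result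

end Pool.Agent.Results.MP_de3d06_an.DiscSharpConstant
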